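import Pool.Agent.Q292.LR.Usc

/-!
Continuity of the percolation probability at the critical points.
-/

set_option autoImplicit false

open MeasureTheory Set Filter
open scoped Topology

namespace Q292.LR

open Pool.Agent.W783.PC

/-- the percolation probability of site percolation as a function of both parameters -/
noncomputable abbrev th (n m : ℕ) (s : ℝ) (x : unitInterval × NNReal) : ℝ :=
  theta n x.1 1 x.2 s m

theorem cont_of_zero {n m : ℕ} {s : ℝ} (hs : 1 < s) {x : unitInterval × NNReal}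
    (h0 : th n m s x = 0) : ContinuousAt (th n m s) x := by
  rw [Metric.continuousAt_iff]
  intro ε hε
  obtain ⟨δ, hδ, h⟩ := usc n m x.1 1 x.2 s hs (ε / 2) (by positivity)
  refine ⟨δ, hδ, fun {y} hy => ?_⟩
  rw [Prod.dist_eq, max_lt_iff] at hy
  have h1 : |(y.1 : ℝ) - x.1| ≤ δ := by
    have := hy.1.le
    rwa [Subtype.dist_eq, Real.dist_eq] at this
  have h2 : |(y.2 : ℝ) - x.2| ≤ δ := by
    have := hy.2.le
    rwa [NNReal.dist_eq] at this
  have h3 := h y.1 1 y.2 h1 (by simpa using hδ.le) h2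
  have h4 : theta n x.1 1 x.2 s m = 0 := h0
  rw [h0, Real.dist_eq, sub_zero, abs_of_nonneg (theta_nonneg _ _ _ _ _)]
  rw [h4] at h3
  linarith

theorem th_mono {n m : ℕ} {s : ℝ} {x y : unitInterval × NNReal} (h1 : x.1 ≤ y.1)
    (h2 : x.2 ≤ y.2) : th n m s x ≤ th n m s y := theta_mono h1 le_rfl h2 s m

theorem zero_below {n m : ℕ} {s : ℝ} {a : unitInterval} {β : NNReal}
    (ha : a < acS n m s β) : th n m s (a, β) = 0 := by
  have ha' : (a : ℝ) < acS n m s β := ha
  obtain ⟨q, h1, h2, h3⟩ := exists_of_lt_crit (f := fun a => theta n a 1 β s m) a.2.1 ha'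
  apply le_antisymm _ (theta_nonneg _ _ _ _ _)
  have h4 : th n m s (a, β) ≤ th n m s (q, β) := th_mono (le_of_lt h1) le_rfl
  have h5 : th n m s (q, β) = 0 := h3
  linarith

theorem cont_iff {n m : ℕ} {s : ℝ} (hs : 1 < s) {β : NNReal} :
    ContinuousAt (th n m s) (acS n m s β, β) ↔ th n m s (acS n m s β, β) = 0 := by
  refine ⟨fun h => ?_, fun h => cont_of_zero hs h⟩
  by_contra hne
  have hpos : 0 < th n m s (acS n m s β, β) :=
    lt_of_le_of_ne (theta_nonneg _ _ _ _ _) (Ne.symm hne)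
  rw [Metric.continuousAt_iff] at h
  obtain ⟨δ, hδ, h⟩ := h _ hpos
  have hc : (0:ℝ) < acS n m s β := acS_pos hs β
  have hc1 : (acS n m s β : ℝ) ≤ 1 := (acS n m s β).2.2
  obtain ⟨t, ht0, htδ, htc⟩ : ∃ t : ℝ, 0 < t ∧ t < δ ∧ t < acS n m s β :=
    ⟨min (δ / 2) ((acS n m s β : ℝ) / 2), by positivity,
      lt_of_le_of_lt (min_le_left _ _) (by linarith),
      lt_of_le_of_lt (min_le_right _ _) (by linarith)⟩
  let a : unitInterval := ⟨(acS n m s β : ℝ) - t, by linarith, by linarith⟩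
  have hlt : a < acS n m s β := by
    show (acS n m s β : ℝ) - t < acS n m s β
    linarith
  have h1 : dist ((a, β) : unitInterval × NNReal) (acS n m s β, β) < δ := by
    rw [Prod.dist_eq, dist_self, max_lt_iff]
    refine ⟨?_, hδ⟩
    rw [Subtype.dist_eq, Real.dist_eq]
    show |((acS n m s β : ℝ) - t) - acS n m s β| < δ
    rw [sub_sub_cancel_left, abs_neg, abs_of_pos ht0]
    exact htδ
  have h2 := h h1
  rw [zero_below hlt, Real.dist_eq, zero_sub, abs_neg, abs_of_pos hpos] at h2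
  exact lt_irrefl _ h2

theorem th_tendsto {n m : ℕ} {s : ℝ} (hs : 1 < s) (a : unitInterval) (β : NNReal) :
    Tendsto (fun β' : NNReal => th n m s (a, β')) (𝓝[≥] β) (𝓝 (th n m s (a, β))) := by
  rw [Metric.tendsto_nhds]
  intro ε hε
  obtain ⟨δ, hδ, h⟩ := usc n m a 1 β s hs (ε / 2) (by positivity)
  have h1 : ∀ᶠ β' : NNReal in 𝓝[≥] β, dist β' β < δ :=
    eventually_nhdsWithin_of_eventually_nhds (Metric.eventually_nhds_iff.mpr ⟨δ, hδ, fun _ h => h⟩)
  filter_upwards [h1, self_mem_nhdsWithin] with β' h2 h3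
  have h4 := h a 1 β' (by simpa using hδ.le) (by simpa using hδ.le) (by
    have := h2.le
    rwa [NNReal.dist_eq] at this)
  have h5 : th n m s (a, β) ≤ th n m s (a, β') := th_mono le_rfl h3
  rw [Real.dist_eq, abs_of_nonneg (by linarith)]
  have h6 : th n m s (a, β') ≤ th n m s (a, β) + ε / 2 := h4
  linarith

theorem site_open {n m : ℕ} {s : ℝ} (hn : 1 ≤ n) (hm : 1 ≤ m) (hs : 1 < s) (hs2 : s < 2)
    {a : unitInterval} {β : NNReal} (hβ : 0 < β) (ha : a < 1) (hθ : 0 < theta n a 1 β s m) :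
    ∃ (K : ℕ) (δ : ℝ), 0 < δ ∧ ∀ (a' : unitInterval) (β' : NNReal),
      |(a' : ℝ) - a| ≤ δ → |(β' : ℝ) - β| ≤ δ → 0 < thetaK n a' 1 β' s m K := by
  have ha0 : 0 < a := by
    rcases lt_or_eq_of_le (show (0:ℝ) ≤ a from a.2.1) with h | h
    · exact h
    · exfalso
      have h1 : theta n a 1 β s m = 0 := theta_zero_of_small hs (by rw [← h]; simp)
      rw [h1] at hθ
      exact lt_irrefl _ hθ
  have ha1 : (a : ℝ) < 1 := ha
  obtain ⟨K, δ, hδ, h⟩ := open_phase hn hm hs hs2 ha0 one_pos hβ (by simpa using ha1) hθ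
  exact ⟨K, δ, hδ, fun a' β' h1 h2 => h a' 1 β' h1 (by simpa using hδ.le) h2⟩

end Q292.LR
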