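import Pool.Agent.W783.Perc.Fin

/-!
Joint upper semicontinuity of the percolation probability in all parameters, including the strength
of the long bonds.
-/

set_option autoImplicit false

open MeasureTheory Set Filter
open scoped Topology

namespace Q292.LR

open Pool.Agent.W783.PC Pool.Agent.W148.PC
open Pool.Agent.W402.PC (pm_coord prob_summable)
open Pool.Agent.W400.PC (s_tv)

variable {n : ℕ}

theorem lrp_le {β β' : NNReal} (h : β ≤ β') (s : ℝ) (k : ℕ) :
    (lrp β s k : ℝ) ≤ lrp β' s k := lrp_mono h s k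

theorem prob_le_one' {m : ℕ} (a p : unitInterval) {β β' : NNReal} (h : β ≤ β') (s : ℝ)
    (e : Sym2 (V n)) :
    (prob (n := n) a p β s m (Sum.inr e) : ℝ) ≤ prob (n := n) 1 1 β' s m (Sum.inr e) := by
  unfold prob
  simp only
  split_ifs
  · exact p.2.2
  · exact lrp_le h s _
  · exact le_rfl

theorem BF_bound' {m : ℕ} (a p : unitInterval) {β β' : NNReal} (h : β ≤ β') (s : ℝ) (hs : 1 < s)
    (B : Finset (V n)) (F : V n → Finset (V n)) {η : ℝ} (hη : 0 ≤ η)
    (hF : ∀ x, ∑' z : {z : V n // z ∉ F x}, (prob (n := n) 1 1 β' s m (Sum.inr s(x, (z : V n))) : ℝ)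
      ≤ η) :
    (pm (prob (n := n) a p β s m)).real (BF B F) ≤ B.card * η := by
  have h1 : pm (prob (n := n) a p β s m) (BF B F) ≤ ∑ x ∈ B, ENNReal.ofReal η := by
    unfold BF
    refine (measure_biUnion_finset_le B _).trans (Finset.sum_le_sum fun x _ => ?_)
    refine (measure_iUnion_le _).trans ?_
    have h2 : ∀ z : {z : V n // z ∉ F x}, pm (prob (n := n) a p β s m)
        {ω | ω (Sum.inr s(x, (z : V n))) = true}
        ≤ ENNReal.ofReal (prob (n := n) 1 1 β' s m (Sum.inr s(x, (z : V n))) : ℝ) := by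
      intro z
      rw [pm_coord, Pool.Agent.W402.PC.bern_true]
      exact ENNReal.ofReal_le_ofReal (prob_le_one' a p h s _)
    refine (ENNReal.tsum_le_tsum h2).trans ?_
    rw [← ENNReal.ofReal_tsum_of_nonneg]
    · exact ENNReal.ofReal_le_ofReal (hF x)
    · intro z
      exact (prob (n := n) 1 1 β' s m (Sum.inr s(x, (z : V n)))).2.1
    · exact (prob_summable 1 1 β' s hs x).subtype _
  have h3 : ∑ x ∈ B, ENNReal.ofReal η = ENNReal.ofReal (B.card * η) := by
    rw [Finset.sum_const, nsmul_eq_mul, ENNReal.ofReal_mul (by positivity), ENNReal.ofReal_natCast]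
  rw [h3] at h1
  exact ENNReal.toReal_le_of_le_ofReal (by positivity) h1

/-- **Joint upper semicontinuity.** -/
theorem usc (n m : ℕ) (a p : unitInterval) (β : NNReal) (s : ℝ) (hs : 1 < s) (ε : ℝ)
    (hε : 0 < ε) : ∃ δ : ℝ, 0 < δ ∧ ∀ (a' p' : unitInterval) (β' : NNReal),
      |(a' : ℝ) - a| ≤ δ → |(p' : ℝ) - p| ≤ δ → |(β' : ℝ) - β| ≤ δ →
      theta n a' p' β' s m ≤ theta n a p β s m + ε := by
  obtain ⟨L, hL⟩ := exists_L (prob (n := n) a p β s m) (EdI m) (show (0 : ℝ) < ε / 4 by linarith)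
  let B : Finset (V n) := (CB_fin (n := n) L).toFinset
  have hB : (B : Set (V n)) = CB L L := Set.Finite.coe_toFinset _
  have hB0 : (0 : V n) ∈ B := by
    rw [← Finset.mem_coe, hB]; exact CB_zero L
  let η : ℝ := ε / (4 * (B.card + 1))
  have hη : 0 < η := by positivity
  have hFex : ∀ x : V n, ∃ F : Finset (V n),
      ∑' z : {z : V n // z ∉ F}, (prob (n := n) 1 1 (β + 1) s m (Sum.inr s(x, (z : V n))) : ℝ)
        ≤ η := by
    intro x
    have h1 := tendsto_tsum_compl_atTop_zero
      (fun z : V n => (prob (n := n) 1 1 (β + 1) s m (Sum.inr s(x, z)) : ℝ))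
    obtain ⟨F, hF⟩ := (h1.eventually (gt_mem_nhds hη)).exists
    exact ⟨F, hF.le⟩
  choose F hF using hFex
  let D : Finset (Ix n) := (DF_fin B.finite_toSet F).toFinset
  have hD : (D : Set (Ix n)) = DF B F := Set.Finite.coe_toFinset _
  have hAF : DepOn (AF (EdI m) (B : Set (V n)) F) (D : Set (Ix n)) := by
    rw [hD]; exact AF_dep _ _ _
  let δ : ℝ := min 1 (ε / (4 * (D.card + 1)))
  have hδ : 0 < δ := by positivity
  refine ⟨δ, hδ, fun a' p' β' ha hp hβ => ?_⟩
  have hββ : β' ≤ β + 1 := by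
    have h1 := (abs_le.mp (hβ.trans (min_le_left _ _))).2
    have h2 : (β' : ℝ) ≤ ((β + 1 : NNReal) : ℝ) := by
      rw [NNReal.coe_add, NNReal.coe_one]
      linarith
    exact_mod_cast h2
  have hdiff : ∀ c : Ix n, |(prob a p β s m c : ℝ) - prob a' p' β' s m c| ≤ δ := by
    intro c
    refine prob_diff hδ.le (by linarith) m ?_ ?_ ?_ c
    · rw [abs_sub_comm]; exact ha
    · rw [abs_sub_comm]; exact hp
    · rw [abs_sub_comm]; exact hβ
  have h1 : (pm (prob (n := n) a' p' β' s m)).real (Perc (EdI m) 0)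
      ≤ (pm (prob (n := n) a' p' β' s m)).real (AL (EdI m) B) :=
    measureReal_mono (Perc_sub_AL _ B.finite_toSet) (measure_ne_top _ _)
  have h2 : (pm (prob (n := n) a' p' β' s m)).real (AL (EdI m) B)
      ≤ (pm (prob (n := n) a' p' β' s m)).real (AF (EdI m) B F)
        + (pm (prob (n := n) a' p' β' s m)).real (BF B F) :=
    (measureReal_mono (AL_sub _ B hB0 F) (measure_ne_top _ _)).trans (measureReal_union_le _ _)
  have h3 := BF_bound' (m := m) a' p' hββ s hs B F hη.le hF
  have h4 := s_tv (Ix n) (prob (n := n) a p β s m) (prob (n := n) a' p' β' s m) D _ hAF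
  have h5 : ∑ c ∈ D, |(prob a p β s m c : ℝ) - prob a' p' β' s m c| ≤ D.card * δ := by
    refine (Finset.sum_le_sum fun c _ => hdiff c).trans (le_of_eq ?_)
    rw [Finset.sum_const, nsmul_eq_mul]
  have h6 : (pm (prob (n := n) a p β s m)).real (AF (EdI m) B F)
      ≤ (pm (prob (n := n) a p β s m)).real (AL (EdI m) (CB L L)) := by
    rw [hB]
    exact measureReal_mono (AF_sub _ _ _) (measure_ne_top _ _)
  have h7 : (B.card : ℝ) * η ≤ ε / 4 := by
    have : (B.card : ℝ) * η = ε / 4 * (B.card / (B.card + 1)) := by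
      simp only [η]; field_simp
    rw [this]
    have h8 : (B.card : ℝ) / (B.card + 1) ≤ 1 := by
      rw [div_le_one (by positivity)]; linarith
    nlinarith
  have h9 : (D.card : ℝ) * δ ≤ ε / 4 := by
    have h10 : (D.card : ℝ) * δ ≤ D.card * (ε / (4 * (D.card + 1))) :=
      mul_le_mul_of_nonneg_left (min_le_right _ _) (Nat.cast_nonneg _)
    refine h10.trans ?_
    have : (D.card : ℝ) * (ε / (4 * (D.card + 1))) = ε / 4 * (D.card / (D.card + 1)) := by
      field_simp
    rw [this]
    have h8 : (D.card : ℝ) / (D.card + 1) ≤ 1 := by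
      rw [div_le_one (by positivity)]; linarith
    nlinarith
  have h10 := (abs_le.1 (h4.trans (h5.trans h9))).1
  unfold theta
  linarith

end Q292.LR
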